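import Mathlib

/-!
# MP_c5ead3_nt: the least deficient multiplier of an odd number is almost perfect, and Q1 is
equivalent to the conjecture that all almost perfect numbers are powers of two
-/

set_option autoImplicit false

open Finset

namespace Pool.Agent.Results.MP_c5ead3_nt.AlmostPerfectMultipliers

/-- `σ(m)`, the sum of the divisors of `m`. -/
def sg (m : ℕ) : ℕ := ∑ d ∈ m.divisors, d

theorem sub (k n : ℕ) : sg (k * n) ≤ sg k * sg n := by
  unfold sg
  rw [Finset.sum_mul_sum, ← Finset.sum_product', Nat.divisors_mul]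
  have h : ∀ s : Finset (ℕ × ℕ), ∑ d ∈ s.image (fun x : ℕ × ℕ => x.1 * x.2), d ≤
      ∑ x ∈ s, x.1 * x.2 := by
    intro s
    classical
    induction s using Finset.induction_on with
    | empty => simp
    | insert a s ha ih =>
      rw [Finset.image_insert, Finset.sum_insert ha]
      by_cases hm : a.1 * a.2 ∈ s.image fun x : ℕ × ℕ => x.1 * x.2
      · rw [Finset.insert_eq_of_mem hm]
        omega
      · rw [Finset.sum_insert hm]
        omega
  exact h (k.divisors ×ˢ n.divisors)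

theorem sg_two_pow (j : ℕ) : sg (2 ^ j) + 1 = 2 * 2 ^ j := by
  unfold sg
  rw [Nat.sum_divisors_prime_pow Nat.prime_two]
  have := Nat.geomSum_eq (m := 2) le_rfl (j + 1)
  rw [this, pow_succ]
  have : 1 ≤ 2 ^ j := Nat.one_le_two_pow
  omega

theorem sg_ge {n : ℕ} (hn : 1 ≤ n) : n ≤ sg n := by
  unfold sg
  exact Finset.single_le_sum (f := fun d => d) (fun _ _ => Nat.zero_le _)
    (Nat.mem_divisors.2 ⟨dvd_rfl, by omega⟩)

/-- Let `n ≥ 3` be odd and let `k = a(n)` be the least `k ≥ 1` with `σ(k) < 2k` and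
`σ(kn) ≥ 2kn`. Then `k` is almost perfect: `σ(k) = 2k - 1`. -/
theorem almost (n k : ℕ) (hn : Odd n) (hn3 : 3 ≤ n)
    (hk : IsLeast {k : ℕ | 1 ≤ k ∧ sg k < 2 * k ∧ 2 * (k * n) ≤ sg (k * n)} k) :
    sg k + 1 = 2 * k := by
  obtain ⟨⟨hk1, hk2, hk3⟩, hmin⟩ := hk
  set j := Nat.log 2 k with hj
  have h1 : 2 ^ j ≤ k := Nat.pow_log_le_self 2 (by omega)
  have h2 : k < 2 ^ (j + 1) := Nat.lt_pow_succ_log_self (by norm_num) k
  rcases eq_or_lt_of_le h1 with h | h
  · rw [← h]
    exact sg_two_pow j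
  · have h3 := sg_two_pow j
    have h4 : sg (2 ^ j * n) < 2 * (2 ^ j * n) := by
      by_contra hcon
      push Not at hcon
      have := hmin ⟨Nat.one_le_two_pow, by omega, hcon⟩
      omega
    have h5 : sg (2 ^ j * n) = sg (2 ^ j) * sg n := by
      have hc : Nat.Coprime (2 ^ j) n := Nat.Coprime.pow_left j
        ((Nat.coprime_two_left).2 hn)
      exact Nat.Coprime.sum_divisors_mul hc
    have h6 := sub k n
    have h7 := sg_ge (n := n) (by omega)
    by_contra hne
    have h8 : sg k + 2 ≤ 2 * k := by omega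
    rw [h5] at h4
    obtain ⟨e, he⟩ := Nat.exists_eq_add_of_le h7
    obtain ⟨c, hc⟩ := Nat.exists_eq_add_of_le h8
    rw [pow_succ] at h2
    have h9 : 2 * (k * n) ≤ sg k * sg n := hk3.trans h6
    nlinarith
theorem sg_prime {p : ℕ} (hp : p.Prime) : sg p = p + 1 := by
  unfold sg
  rw [hp.sum_divisors]

theorem sg_cop {m n : ℕ} (h : Nat.Coprime m n) : sg (m * n) = sg m * sg n :=
  Nat.Coprime.sum_divisors_mul h

/-- products of large primes have a dense set of abundancies -/
theorem exists_n (M : ℕ) (α β : ℝ) (h1 : 1 < α) (h2 : α < β) :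
    ∃ n : ℕ, 3 ≤ n ∧ (∀ p, p.Prime → p ∣ n → M < p) ∧ α * n ≤ sg n ∧ (sg n : ℝ) < β * n := by
  -- primes larger than `M'`
  obtain ⟨M', hM', hM2⟩ : ∃ M' : ℕ, M + 2 ≤ M' ∧ α * (1 + 1 / (M' : ℝ)) < β := by
    obtain ⟨N, hN⟩ := exists_nat_gt (α / (β - α))
    refine ⟨max (M + 2) N, le_max_left _ _, ?_⟩
    have h3 : (N : ℝ) ≤ (max (M + 2) N : ℕ) := by exact_mod_cast le_max_right _ _
    have h4 : 0 < β - α := by linarith
    have h5 : 0 < ((max (M + 2) N : ℕ) : ℝ) := by positivity
    have h6 : α / (β - α) < ((max (M + 2) N : ℕ) : ℝ) := hN.trans_le h3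
    rw [div_lt_iff₀ h4] at h6
    rw [mul_add, mul_one, mul_one_div]
    have : α / ((max (M + 2) N : ℕ) : ℝ) < β - α := by
      rw [div_lt_iff₀ h5]; linarith
    linarith
  let T : ℕ → Finset ℕ := fun L => (range L).filter fun p => p.Prime ∧ M' < p
  let F : ℕ → ℝ := fun L => ∏ p ∈ T L, (1 + 1 / (p : ℝ))
  have hbig : ∃ L, α ≤ F L := by
    by_contra hno
    push Not at hno
    apply not_summable_one_div_on_primes
    have hs : Summable (fun n : ℕ => ({p : ℕ | p.Prime ∧ M' < p}).indicator (fun n : ℕ => (1 : ℝ) / n) n) := by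
      refine summable_of_sum_range_le (c := α) (fun n => Set.indicator_nonneg (fun _ _ => by positivity) _) fun L => ?_
      have h3 : ∑ i ∈ range L, ({p : ℕ | p.Prime ∧ M' < p}).indicator (fun n : ℕ => (1 : ℝ) / n) i =
          ∑ p ∈ T L, (1 : ℝ) / p := by
        rw [Finset.sum_filter]
        refine Finset.sum_congr rfl fun i _ => ?_
        simp [Set.indicator_apply]
      rw [h3]
      have h4 : ∀ s : Finset ℕ, ∑ p ∈ s, (1 : ℝ) / p ≤ ∏ p ∈ s, (1 + 1 / (p : ℝ)) := by
        intro s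
        induction s using Finset.induction_on with
        | empty => simp
        | insert a s ha ih =>
          rw [Finset.sum_insert ha, Finset.prod_insert ha]
          have h5 : (1 : ℝ) ≤ ∏ p ∈ s, (1 + 1 / (p : ℝ)) := by
            clear ih ha
            induction s using Finset.induction_on with
            | empty => simp
            | insert b s hb ih =>
              rw [Finset.prod_insert hb]
              have : (0 : ℝ) ≤ 1 / (b : ℝ) := by positivity
              nlinarith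
          have h6 : (0 : ℝ) ≤ 1 / (a : ℝ) := by positivity
          nlinarith
      exact (h4 _).trans (hno L).le
    have hs2 : Summable (fun n : ℕ => ({p : ℕ | p.Prime ∧ p ≤ M'}).indicator (fun n : ℕ => (1 : ℝ) / n) n) := by
      refine summable_of_hasFiniteSupport ?_
      refine (Set.finite_Iic M').subset fun n hn => ?_
      by_contra hcon
      apply hn
      simp only [Set.indicator_apply]
      rw [if_neg]
      rintro ⟨-, h⟩
      exact hcon h
    refine (hs.add hs2).congr fun n => ?_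
    simp only [Set.indicator_apply, Set.mem_ofPred_eq]
    by_cases hp : n.Prime
    · by_cases hM : M' < n
      · simp [hp, hM]
      · simp [hp, hM, not_lt.1 hM]
    · simp [hp]
  classical
  let L := Nat.find hbig
  have hL : α ≤ F L := Nat.find_spec hbig
  have hL0 : L ≠ 0 := by
    intro h0
    rw [h0] at hL
    have : F 0 = 1 := by simp [F, T]
    linarith
  obtain ⟨l, hl⟩ := Nat.exists_eq_succ_of_ne_zero hL0
  have hl2 : F l < α := by
    have := Nat.find_min hbig (m := l) (by show l < L; omega)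
    exact not_le.1 this
  have hlT : l ∉ T l := by simp [T]
  have hTl : T (l + 1) = if l.Prime ∧ M' < l then insert l (T l) else T l := by
    simp only [T]
    rw [Finset.range_add_one, Finset.filter_insert]
  have hcase : l.Prime ∧ M' < l := by
    by_contra hno
    rw [if_neg hno] at hTl
    have : F L = F l := by show ∏ p ∈ T L, _ = _; rw [hl]; show ∏ p ∈ T (l+1), _ = _; rw [hTl]
    linarith
  have hFL : F L = (1 + 1 / (l : ℝ)) * F l := by
    show ∏ p ∈ T L, _ = _
    rw [hl]
    show ∏ p ∈ T (l+1), _ = _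
    rw [hTl, if_pos hcase, Finset.prod_insert hlT]
  have hlt : F L < β := by
    have h3 : (0 : ℝ) < M' := by
      have : 0 < M' := by omega
      exact_mod_cast this
    have h4 : (M' : ℝ) < l := by exact_mod_cast hcase.2
    have h5 : 1 / (l : ℝ) ≤ 1 / (M' : ℝ) := one_div_le_one_div_of_le h3 h4.le
    have h6 : (0 : ℝ) ≤ 1 / (l : ℝ) := by positivity
    rw [hFL]
    calc (1 + 1 / (l : ℝ)) * F l ≤ (1 + 1 / (M' : ℝ)) * α := by
          apply mul_le_mul (by linarith) hl2.le
          · exact Finset.prod_nonneg fun i _ => by positivity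
          · positivity
      _ = α * (1 + 1 / (M' : ℝ)) := mul_comm _ _
      _ < β := hM2
  have hsg : ∀ s : Finset ℕ, (∀ p ∈ s, p.Prime) →
      (sg (∏ p ∈ s, p) : ℝ) = (∏ p ∈ s, (1 + 1 / (p : ℝ))) * ((∏ p ∈ s, p : ℕ) : ℝ) := by
    intro s hs
    induction s using Finset.induction_on with
    | empty => simp [sg]
    | insert a s ha ih =>
      have hap := hs a (Finset.mem_insert_self a s)
      have hc : Nat.Coprime a (∏ p ∈ s, p) := by
        refine Nat.Coprime.prod_right fun p hp => ?_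
        refine (Nat.coprime_primes hap (hs p (Finset.mem_insert_of_mem hp))).2 ?_
        rintro rfl
        exact ha hp
      rw [Finset.prod_insert ha, Finset.prod_insert ha, sg_cop hc, sg_prime hap]
      have hap0 : (a : ℝ) ≠ 0 := by exact_mod_cast hap.ne_zero
      push_cast
      rw [ih fun p hp => hs p (Finset.mem_insert_of_mem hp)]
      push_cast
      field_simp
  have hTp : ∀ p ∈ T L, p.Prime := fun p hp => (Finset.mem_filter.1 hp).2.1
  have hn0 : (0 : ℝ) < ((∏ p ∈ T L, p : ℕ) : ℝ) := by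
    exact_mod_cast Finset.prod_pos fun p hp => (hTp p hp).pos
  have hlmem : l ∈ T L := by
    rw [hl]; show l ∈ T (l+1); rw [hTl, if_pos hcase]; exact Finset.mem_insert_self _ _
  refine ⟨∏ p ∈ T L, p, ?_, ?_, ?_, ?_⟩
  · have h7 : l ∣ ∏ p ∈ T L, p := Finset.dvd_prod_of_mem _ hlmem
    have h8 := Nat.le_of_dvd (by exact_mod_cast hn0) h7
    omega
  · intro p hp hd
    obtain ⟨r, hr, hd2⟩ := (Prime.dvd_finsetProd_iff hp.prime _).1 hd
    have : p = r := (Nat.prime_dvd_prime_iff_eq hp (hTp r hr)).1 hd2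
    subst this
    have := (Finset.mem_filter.1 hr).2.2
    omega
  · rw [hsg _ hTp]
    exact mul_le_mul_of_nonneg_right hL hn0.le
  · rw [hsg _ hTp]
    exact mul_lt_mul_of_pos_right hlt hn0


/-- The multipliers of `n`: the deficient `k` for which `kn` is not deficient. -/
def Mult (n : ℕ) : Set ℕ := {k : ℕ | 1 ≤ k ∧ sg k < 2 * k ∧ 2 * (k * n) ≤ sg (k * n)}

theorem conv (H : ∀ n k : ℕ, Odd n → 3 ≤ n → IsLeast (Mult n) k → k = 3 ∨ ∃ j, k = 2 ^ j)
    (k0 : ℕ) (hk0 : 1 ≤ k0) (hap : sg k0 + 1 = 2 * k0) : ∃ j, k0 = 2 ^ j := by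
  by_contra hno
  push Not at hno
  set j := Nat.log 2 k0 with hj
  have h1 : 2 ^ j ≤ k0 := Nat.pow_log_le_self 2 (by omega)
  have h1' : 2 ^ j ≠ k0 := fun h => hno j h.symm
  have h2 : k0 < 2 ^ (j + 1) := Nat.lt_pow_succ_log_self (by norm_num) k0
  have hk1 : 2 ≤ k0 := by
    rcases Nat.lt_or_ge k0 2 with h | h
    · exact absurd (by omega : k0 = 2 ^ 0) (hno 0)
    · exact h
  have hP : (1 : ℝ) < (2 : ℝ) ^ (j + 1) := one_lt_pow₀ (by norm_num) (by omega)
  have hk0R : (2 : ℝ) ≤ k0 := by exact_mod_cast hk1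
  have h2M : (2 : ℝ) ^ (j + 1) < 2 * k0 := by
    have : 2 ^ (j + 1) < 2 * k0 := by rw [pow_succ]; omega
    exact_mod_cast this
  obtain ⟨n, hn3, hnp, hα, hβ⟩ := exists_n k0 (2 * k0 / (2 * k0 - 1))
    ((2 : ℝ) ^ (j + 1) / ((2 : ℝ) ^ (j + 1) - 1))
    (by rw [lt_div_iff₀ (by linarith)]; linarith)
    (by rw [div_lt_div_iff₀ (by linarith) (by linarith)]; nlinarith)
  have hnodd : Odd n := by
    rw [← Nat.not_even_iff_odd, even_iff_two_dvd]
    intro h
    have := hnp 2 Nat.prime_two h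
    omega
  have hcop : Nat.Coprime k0 n := by
    refine Nat.coprime_of_dvd fun p hp h3 h4 => ?_
    have h5 := hnp p hp h4
    have h6 := Nat.le_of_dvd (by omega) h3
    omega
  have hn0 : (0 : ℝ) < n := by
    have : 0 < n := by omega
    exact_mod_cast this
  have hmem : k0 ∈ Mult n := by
    refine ⟨hk0, by omega, ?_⟩
    rw [sg_cop hcop]
    have h3 : (sg k0 : ℝ) = 2 * k0 - 1 := by
      have : (sg k0 : ℝ) + 1 = 2 * k0 := by exact_mod_cast hap
      linarith
    have h4 : (2 : ℝ) * (k0 * n) ≤ sg k0 * sg n := by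
      rw [h3]
      have h5 : (0 : ℝ) < 2 * k0 - 1 := by linarith
      have h6 := mul_le_mul_of_nonneg_left hα h5.le
      have h7 : (2 * (k0 : ℝ) - 1) * (2 * k0 / (2 * k0 - 1) * n) = 2 * (k0 * n) := by
        field_simp
      linarith
    exact_mod_cast h4
  have hex : ∃ k, k ∈ Mult n := ⟨k0, hmem⟩
  classical
  have hleast : IsLeast (Mult n) (Nat.find hex) :=
    ⟨Nat.find_spec hex, fun m hm => Nat.find_min' hex hm⟩
  have hle : Nat.find hex ≤ k0 := Nat.find_min' hex hmem
  have hal := almost n _ hnodd hn3 hleast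
  rcases H n _ hnodd hn3 hleast with h | ⟨i, hi⟩
  · rw [h] at hal
    have : sg 3 = 4 := by decide
    omega
  · have hm := hleast.1.2.2
    rw [hi] at hm hle
    have hc : Nat.Coprime (2 ^ i) n := Nat.Coprime.pow_left i ((Nat.coprime_two_left).2 hnodd)
    rw [sg_cop hc] at hm
    have hs := sg_two_pow i
    have hij : i ≤ j := by
      have : 2 ^ i < 2 ^ (j + 1) := lt_of_le_of_lt hle h2
      have := (Nat.pow_lt_pow_iff_right (by norm_num)).1 this
      omega
    have hij2 : 2 ^ i ≤ 2 ^ j := Nat.pow_le_pow_right (by norm_num) hij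
    have hβ2 : (sg n : ℝ) * ((2 : ℝ) ^ (j + 1) - 1) < (2 : ℝ) ^ (j + 1) * n := by
      rw [div_mul_eq_mul_div, lt_div_iff₀ (by linarith)] at hβ
      exact hβ
    have hβ3 : sg n * 2 ^ (j + 1) < 2 ^ (j + 1) * n + sg n := by
      have : (sg n : ℝ) * (2 : ℝ) ^ (j + 1) < (2 : ℝ) ^ (j + 1) * n + sg n := by linarith
      exact_mod_cast this
    have h7 := sg_ge (n := n) (by omega)
    obtain ⟨e, he⟩ := Nat.exists_eq_add_of_le h7
    rw [pow_succ] at hβ3
    rw [he] at hβ3 hm
    have hs2 : sg (2 ^ i) = 2 * 2 ^ i - 1 := by omega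
    have h8 : sg (2 ^ i) * (n + e) + (n + e) = 2 * 2 ^ i * (n + e) := by
      rw [← hs]; ring
    nlinarith

/-- (1) For odd `n ≥ 3` the least deficient multiplier `a(n)` is almost perfect.
(2) For odd `n ≥ 3` all `a(n)` are `3` or powers of `2` if and only if every almost perfect
number is a power of `2`. -/
theorem result :
    (∀ n k : ℕ, Odd n → 3 ≤ n → IsLeast (Mult n) k → sg k + 1 = 2 * k) ∧
    ((∀ n k : ℕ, Odd n → 3 ≤ n → IsLeast (Mult n) k → k = 3 ∨ ∃ j, k = 2 ^ j) ↔
      ∀ k : ℕ, 1 ≤ k → sg k + 1 = 2 * k → ∃ j, k = 2 ^ j) := by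
  refine ⟨fun n k h1 h2 h3 => almost n k h1 h2 h3, fun H k h1 h2 => conv H k h1 h2, ?_⟩
  intro H n k h1 h2 h3
  exact Or.inr (H k h3.1.1 (almost n k h1 h2 h3))

end Pool.Agent.Results.MP_c5ead3_nt.AlmostPerfectMultipliers
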